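import Mathlib
import Pool.Agent.KS6_69.PathCount

/-!
# Covering a complete geometric graph by noncrossing paths can need `n log n / log log n` paths

For every `k ≥ 1` and every `n ≥ 8 k ^ 3 (8 k ^ 2) ^ k` there is a set `A` of `n` points in general
position in the plane with `p(A) ≥ k n / 10`. Hence `p(A) ≥ c n` for every constant `c` and every
large `n`, and even `p(A) ≥ n log n / (50 log log n)`. More generally a covering of the complete
geometric graph on `A` by `m` noncrossing geometric graphs of maximum degree at most `D` has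
`D m ≥ k n / 5`.

The set consists (up to a small perturbation) of `k m` points of slope `s = b / (k m)` on the line
`x = -1` and of `m` points of slope `s = a / m` on each of `k` vertical lines to the right of the
origin. Class `i` is the set of the edges from the left line to the `i`-th right line whose slopes
differ by at most `h_i = K ^ (- i - 1)`; the lines are placed such that all these edges meet the axis
`x = 0` in one and the same segment, of length `2`, after a change of scale, and the height of an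
edge of class `i` is the difference of its slopes divided by `h_i`. In a noncrossing graph of
maximum degree `D` two edges of the class `i`, at the heights `x < y`, have slopes at the left line
which differ by at most `2 h_i`; so at most `D (2 h_i k m + 1)` edges of other classes pass between
them, which is negligible for the lower classes, for which `D m h_j` edges would fit in. Therefore
the classes compete for the heights, and the total weight of the graph, with weights `1 / (m h_i)`,
is at most `D (2 + o(1))`, whereas the total weight of all the edges is about `2 k · k m`.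
-/

set_option autoImplicit false

open Finset Filter

namespace Pool.Agent.Results.MP_2ace6b_co.SuperlinearCovers

/-- no three points of `A` are collinear -/
def GeneralPosition (A : Finset (ℝ × ℝ)) : Prop :=
  ∀ a ∈ A, ∀ b ∈ A, ∀ c ∈ A, a ≠ b → a ≠ c → b ≠ c → ¬ Collinear ℝ {a, b, c}

/-- `v 0, …, v (t - 1)` is a path of the complete geometric graph on `A` (distinct points of `A`,
at least two of them), and two different edges of it have at most a common end point in common -/
def IsPlanePath (A : Finset (ℝ × ℝ)) (t : ℕ) (v : ℕ → ℝ × ℝ) : Prop :=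
  2 ≤ t ∧ (∀ i < t, v i ∈ A) ∧ (∀ i < t, ∀ j < t, v i = v j → i = j) ∧
    ∀ i j, i + 1 < t → j + 1 < t → i ≠ j →
      segment ℝ (v i) (v (i + 1)) ∩ segment ℝ (v j) (v (j + 1)) ⊆
        {v i, v (i + 1)} ∩ {v j, v (j + 1)}

/-- the path `v 0, …, v (t - 1)` contains the edge `ab` -/
def Contains (t : ℕ) (v : ℕ → ℝ × ℝ) (a b : ℝ × ℝ) : Prop :=
  ∃ i, i + 1 < t ∧ ((v i = a ∧ v (i + 1) = b) ∨ (v i = b ∧ v (i + 1) = a))

/-- the complete geometric graph on `A` can be covered by `m` noncrossing paths -/
def PathCoverable (A : Finset (ℝ × ℝ)) (m : ℕ) : Prop :=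
  ∃ (t : Fin m → ℕ) (v : Fin m → ℕ → ℝ × ℝ), (∀ s, IsPlanePath A (t s) (v s)) ∧
    ∀ a ∈ A, ∀ b ∈ A, a ≠ b → ∃ s, Contains (t s) (v s) a b

/-- `p(A)`: the least number of noncrossing paths which cover the complete geometric graph on `A` -/
noncomputable def pathCover (A : Finset (ℝ × ℝ)) : ℕ := sInf {m | PathCoverable A m}

/-- a noncrossing geometric graph of maximum degree at most `D`: two different edges have at most
a common end point in common -/
def IsPlaneGraph (D : ℕ) (G : SimpleGraph (ℝ × ℝ)) : Prop :=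
  (∀ a, (G.neighborSet a).encard ≤ D) ∧
    ∀ a b c d, G.Adj a b → G.Adj c d → s(a, b) ≠ s(c, d) →
      segment ℝ a b ∩ segment ℝ c d ⊆ {a, b} ∩ {c, d}

/-- the graphs `G s` together contain all edges of the complete geometric graph on `A` -/
def Covers (A : Finset (ℝ × ℝ)) {m : ℕ} (G : Fin m → SimpleGraph (ℝ × ℝ)) : Prop :=
  ∀ a ∈ A, ∀ b ∈ A, a ≠ b → ∃ s, (G s).Adj a b

theorem pl_of_path {A : Finset (ℝ × ℝ)} {t : ℕ} {v : ℕ → ℝ × ℝ} (h : IsPlanePath A t v) :
    KS6_69.PathGeo.Pl 2 (Contains t v) := by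
  classical
  obtain ⟨-, -, hinj, hnc⟩ := h
  refine ⟨?_, ?_, ?_⟩
  · rintro a b ⟨i, h1, h2⟩
    exact ⟨i, h1, h2.symm⟩
  · intro a J hJ
    rcases J.eq_empty_or_nonempty with rfl | ⟨j0, hj0⟩
    · simp
    obtain ⟨i0, hi0, e0⟩ : ∃ i0, i0 < t ∧ v i0 = a := by
      obtain ⟨i, h1, h2 | h2⟩ := hJ j0 hj0
      · exact ⟨i, by omega, h2.1⟩
      · exact ⟨i + 1, h1, h2.2⟩
    refine (card_le_card (t := {v (i0 + 1), v (i0 - 1)}) ?_).trans card_le_two
    intro j hj
    obtain ⟨i, h1, h2 | h2⟩ := hJ j hj
    · have : i = i0 := hinj i (by omega) i0 hi0 (h2.1.trans e0.symm)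
      subst this
      simp [h2.2]
    · have : i + 1 = i0 := hinj _ h1 i0 hi0 (h2.2.trans e0.symm)
      subst this
      simp [h2.1]
  · rintro a b c d ⟨i, hi, ⟨rfl, rfl⟩ | ⟨rfl, rfl⟩⟩ ⟨j, hj, ⟨rfl, rfl⟩ | ⟨rfl, rfl⟩⟩ hne
    · exact hnc i j hi hj (fun h => hne (by rw [h]))
    · rw [segment_symm ℝ (v (j + 1)) (v j), Set.pair_comm (v (j + 1)) (v j)]
      exact hnc i j hi hj (fun h => hne (by rw [h]; exact Sym2.eq_swap))
    · rw [segment_symm ℝ (v (i + 1)) (v i), Set.pair_comm (v (i + 1)) (v i)]
      exact hnc i j hi hj (fun h => hne (by rw [h]; exact Sym2.eq_swap))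
    · rw [segment_symm ℝ (v (i + 1)) (v i), Set.pair_comm (v (i + 1)) (v i),
        segment_symm ℝ (v (j + 1)) (v j), Set.pair_comm (v (j + 1)) (v j)]
      exact hnc i j hi hj (fun h => hne (by rw [h]))

theorem pl_of_graph {D : ℕ} {G : SimpleGraph (ℝ × ℝ)} (h : IsPlaneGraph D G) :
    KS6_69.PathGeo.Pl D (fun a b => G.Adj a b) := by
  refine ⟨fun a b hab => hab.symm, ?_, h.2⟩
  intro a J hJ
  have h1 : ((J : Set (ℝ × ℝ))).encard ≤ (G.neighborSet a).encard :=
    Set.encard_le_encard (fun b hb => hJ b hb)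
  have h2 := h1.trans (h.1 a)
  rw [Set.encard_coe_eq_coe_finsetCard] at h2
  exact_mod_cast h2

theorem pathCoverable_exists (A : Finset (ℝ × ℝ)) : ∃ m, PathCoverable A m := by
  classical
  refine ⟨A.offDiag.card, fun _ => 2,
    fun s i => if i = 0 then (A.offDiag.equivFin.symm s).1.1 else (A.offDiag.equivFin.symm s).1.2,
    ?_, ?_⟩
  · intro s
    have hs := mem_offDiag.1 (A.offDiag.equivFin.symm s).2
    refine ⟨le_rfl, ?_, ?_, ?_⟩
    · intro i _
      dsimp only
      split_ifs
      · exact hs.1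
      · exact hs.2.1
    · intro i hi j hj hij
      have hi' : i < 2 := hi
      have hj' : j < 2 := hj
      dsimp only at hij
      split_ifs at hij with h1 h2 h2
      · omega
      · exact absurd hij hs.2.2
      · exact absurd hij.symm hs.2.2
      · omega
    · intro i j hi hj hij
      have hi' : i + 1 < 2 := hi
      have hj' : j + 1 < 2 := hj
      omega
  · intro a ha b hb hab
    refine ⟨A.offDiag.equivFin ⟨(a, b), mem_offDiag.2 ⟨ha, hb, hab⟩⟩, 0, Nat.one_lt_two,
      Or.inl ⟨?_, ?_⟩⟩
    · simp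
    · simp

theorem main (k n : ℕ) (hk : 1 ≤ k) (hn : 8 * k ^ 3 * (8 * k ^ 2) ^ k ≤ n) :
    ∃ A : Finset (ℝ × ℝ), A.card = n ∧ GeneralPosition A ∧ k * n ≤ 10 * pathCover A ∧
      ∀ (D m : ℕ) (G : Fin m → SimpleGraph (ℝ × ℝ)), (∀ s, IsPlaneGraph D (G s)) → Covers A G →
        k * n ≤ 5 * (D * m) := by
  obtain ⟨A, h1, h2, h3⟩ := KS6_69.PathCount.explicit k n hk hn
  refine ⟨A, h1, h2, ?_, ?_⟩
  · obtain ⟨t, v, h4, h5⟩ := Nat.sInf_mem (pathCoverable_exists A)
    have h6 := h3 2 _ (fun s => Contains (t s) (v s)) (fun s => pl_of_path (h4 s)) h5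
    exact h6
  · intro D m G hG hcov
    have h6 := h3 D m (fun s a b => (G s).Adj a b) (fun s => pl_of_graph (hG s)) hcov
    rw [← mul_assoc]
    exact h6

/-- **Superlinear lower bounds for coverings by noncrossing paths.**
0. For every constant `C` and all large `n` there is a set `A` of `n` points in general position
with `p(A) ≥ C n`.
1. For all `k ≥ 1` and `n ≥ 8 k ^ 3 (8 k ^ 2) ^ k` there is a set `A` of `n` points in general
position with `p(A) ≥ k n / 10`, and every covering of the complete geometric graph on `A` by `m`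
noncrossing graphs of maximum degree at most `D` satisfies `D m ≥ k n / 5`.
2. For all large `n` there is a set `A` of `n` points in general position with
`p(A) ≥ n log n / (50 log log n)`, and every covering of the complete geometric graph on `A` by `m`
noncrossing graphs of maximum degree at most `D` satisfies `D m ≥ n log n / (25 log log n)`. -/
theorem result :
    (∀ C : ℝ, ∀ᶠ n : ℕ in atTop, ∃ A : Finset (ℝ × ℝ), A.card = n ∧ GeneralPosition A ∧
      C * n ≤ pathCover A) ∧
    (∀ k n : ℕ, 1 ≤ k → 8 * k ^ 3 * (8 * k ^ 2) ^ k ≤ n →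
      ∃ A : Finset (ℝ × ℝ), A.card = n ∧ GeneralPosition A ∧
        (k : ℝ) * n / 10 ≤ pathCover A ∧
        ∀ (D m : ℕ) (G : Fin m → SimpleGraph (ℝ × ℝ)), (∀ s, IsPlaneGraph D (G s)) →
          Covers A G → (k : ℝ) * n / 5 ≤ D * m) ∧
    ∀ᶠ n : ℕ in atTop, ∃ A : Finset (ℝ × ℝ), A.card = n ∧ GeneralPosition A ∧
      n * Real.log n / (50 * Real.log (Real.log n)) ≤ pathCover A ∧
      ∀ (D m : ℕ) (G : Fin m → SimpleGraph (ℝ × ℝ)), (∀ s, IsPlaneGraph D (G s)) →
        Covers A G → n * Real.log n / (25 * Real.log (Real.log n)) ≤ D * m := by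
  have h0 : ∀ k n : ℕ, 1 ≤ k → 8 * k ^ 3 * (8 * k ^ 2) ^ k ≤ n →
      ∃ A : Finset (ℝ × ℝ), A.card = n ∧ GeneralPosition A ∧
        (k : ℝ) * n / 10 ≤ pathCover A ∧
        ∀ (D m : ℕ) (G : Fin m → SimpleGraph (ℝ × ℝ)), (∀ s, IsPlaneGraph D (G s)) →
          Covers A G → (k : ℝ) * n / 5 ≤ D * m := by
    intro k n hk hn
    obtain ⟨A, h1, h2, h3, h4⟩ := main k n hk hn
    refine ⟨A, h1, h2, ?_, ?_⟩
    · rw [div_le_iff₀ (by norm_num), mul_comm (pathCover A : ℝ)]
      exact_mod_cast h3
    · intro D m G hG hcov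
      rw [div_le_iff₀ (by norm_num), mul_comm ((D : ℝ) * m)]
      exact_mod_cast h4 D m G hG hcov
  refine ⟨?_, h0, ?_⟩
  · intro C
    set k := ⌈10 * C⌉₊ + 1 with hk
    filter_upwards [eventually_ge_atTop (8 * k ^ 3 * (8 * k ^ 2) ^ k)] with n hn
    obtain ⟨A, h1, h2, h3, _⟩ := h0 k n (by omega) hn
    refine ⟨A, h1, h2, le_trans ?_ h3⟩
    have e1 : 10 * C ≤ k := by
      have := Nat.le_ceil (10 * C)
      rw [hk]
      push_cast
      linarith
    have e0 : (0 : ℝ) ≤ n := Nat.cast_nonneg _
    rw [le_div_iff₀ (by norm_num)]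
    nlinarith
  filter_upwards [KS6_69.PathCount.asymp] with n hn
  obtain ⟨k, hk1, hk2, hk3⟩ := hn
  obtain ⟨A, h1, h2, h3, h4⟩ := h0 k n hk1 hk2
  have e0 : (0 : ℝ) ≤ n := Nat.cast_nonneg _
  have e1 : (n : ℝ) * Real.log n / (50 * Real.log (Real.log n)) ≤ (k : ℝ) * n / 10 := by
    have : (n : ℝ) * Real.log n / (50 * Real.log (Real.log n)) =
        Real.log n / (5 * Real.log (Real.log n)) * n / 10 := by
      rw [show (50 : ℝ) * Real.log (Real.log n) = 5 * Real.log (Real.log n) * 10 by ring,
        ← div_div]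
      ring
    rw [this]
    gcongr
  have e2 : (n : ℝ) * Real.log n / (25 * Real.log (Real.log n)) ≤ (k : ℝ) * n / 5 := by
    have : (n : ℝ) * Real.log n / (25 * Real.log (Real.log n)) =
        Real.log n / (5 * Real.log (Real.log n)) * n / 5 := by
      rw [show (25 : ℝ) * Real.log (Real.log n) = 5 * Real.log (Real.log n) * 5 by ring,
        ← div_div]
      ring
    rw [this]
    gcongr
  exact ⟨A, h1, h2, e1.trans h3, fun D m G hG hcov => e2.trans (h4 D m G hG hcov)⟩

end Pool.Agent.Results.MP_2ace6b_co.SuperlinearCovers
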